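import Mathlib
import Pool.Agent.Lib.P34c5b1.Main

/-!
# A bisequential compactum of size continuum that is not an image of a first countable compactum

The compactum is the one-point compactification of a Mrowka-Isbell space on the countable set
`2^{<ω} × ω`.  The almost disjoint family has members `A (z, x)` for `z, x ∈ 2^ω`; the set
`A (z, x)` lies on the columns over the branch `z` and `h z` converges to `x` along it, where
`(h z)` is an independent family of maps `ω → 2^ω`, and `A (z, x)` is steered by the sequence of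
sets coded by `x`.
-/

set_option autoImplicit false

open Set Filter Topology

universe u

namespace Pool.Agent.Results.MP_34c5b1_gt.NotFirstCountableImage

/-- Bisequential spaces (in the sense of Michael): for every filter `η` on `X` and every point `x`
in the intersection of the closures of the members of `η`, there is a (decreasing) sequence of
subsets of `X` which converges to `x` and is synchronized with `η`. -/
def Bisequential (X : Type*) [TopologicalSpace X] : Prop :=
  ∀ (η : Filter X) (x : X), (∀ P ∈ η, x ∈ closure P) →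
    ∃ S : ℕ → Set X, Antitone S ∧ (∀ O ∈ 𝓝 x, ∃ m, ∀ n ≥ m, S n ⊆ O) ∧
      ∀ n, ∀ P ∈ η, (S n ∩ P).Nonempty

open Pool.Agent.Lib.P34c5b1 in
theorem ultra (x : Pool.Agent.Lib.P34c5b1.X) (u : Ultrafilter Pool.Agent.Lib.P34c5b1.X)
    (hu : ↑u ≤ 𝓝 x) :
    ∃ B : ℕ → Set Pool.Agent.Lib.P34c5b1.X, Antitone B ∧ (∀ n, B n ∈ u) ∧
      ∀ O ∈ 𝓝 x, ∃ m, ∀ n ≥ m, B n ⊆ O := by
  by_cases hx : ({x} : Set Pool.Agent.Lib.P34c5b1.X) ∈ u
  · exact ⟨fun _ => {x}, fun _ _ _ => le_rfl, fun _ => hx, fun O hO =>
      ⟨0, fun _ _ => Set.singleton_subset_iff.2 (mem_of_mem_nhds hO)⟩⟩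
  cases x with
  | pt d => exact absurd (hu ((isClopen_pt d).isOpen.mem_nhds rfl)) hx
  | inf => exact ultra_inf u hu
  | ad i =>
    have hC : C i ∈ u := hu ((isClopen_C i).isOpen.mem_nhds (mem_C_ad.2 rfl))
    have hne : ∀ d, ({Pool.Agent.Lib.P34c5b1.X.pt d}ᶜ : Set Pool.Agent.Lib.P34c5b1.X) ∈ u :=
      fun d => hu ((isClopen_pt d).compl.isOpen.mem_nhds (by simp))
    have hfin : ∀ n : ℕ, {d : List Bool × ℕ | Encodable.encode d < n}.Finite := fun n =>
      Set.Finite.preimage (Encodable.encode_injective.injOn) (Set.finite_Iio n)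
    refine ⟨fun n => {p | ∃ d ∈ A i, n ≤ Encodable.encode d ∧ p = X.pt d}, ?_, ?_, ?_⟩
    · rintro m n hmn p ⟨d, hd, hn, rfl⟩
      exact ⟨d, hd, hmn.trans hn, rfl⟩
    · intro n
      have h1 : ⋂ d ∈ {d : List Bool × ℕ | Encodable.encode d < n},
          ({X.pt d}ᶜ : Set Pool.Agent.Lib.P34c5b1.X) ∈ u :=
        (Filter.biInter_mem (hfin n)).2 fun d _ => hne d
      have h2 : ({X.ad i}ᶜ : Set Pool.Agent.Lib.P34c5b1.X) ∈ u :=
        Ultrafilter.compl_mem_iff_notMem.2 hx
      refine Filter.mem_of_superset (Filter.inter_mem (Filter.inter_mem hC h2) h1) ?_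
      rintro p ⟨⟨hp1, hp2⟩, hp3⟩
      rcases hp1 with rfl | ⟨d, hd, rfl⟩
      · exact absurd rfl hp2
      · refine ⟨d, hd, ?_, rfl⟩
        by_contra hcon
        exact mem_iInter₂.1 hp3 d (not_le.1 hcon) rfl
    · intro O hO
      obtain ⟨U, hUO, hU, hiU⟩ := mem_nhds_iff.1 hO
      have h3 := ((isOpen_iff U).1 hU).1 i hiU
      obtain ⟨B, hB⟩ := (h3.image Encodable.encode).bddAbove
      refine ⟨B + 1, fun n hn p hp => hUO ?_⟩
      obtain ⟨d, hd, hd', rfl⟩ := hp
      by_contra hcon
      have := hB ⟨d, ⟨hd, hcon⟩, rfl⟩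
      omega

/-- There is a bisequential compactum of cardinality at most the continuum that is not a
continuous image of any first countable compact space (Hausdorff or not). -/
theorem result : ∃ (X : Type) (_ : TopologicalSpace X), CompactSpace X ∧ T2Space X ∧
    Bisequential X ∧ Cardinal.mk X ≤ Cardinal.continuum ∧
    ∀ (K : Type u) [TopologicalSpace K] [CompactSpace K] [FirstCountableTopology K]
      (f : K → X), Continuous f → ¬ Function.Surjective f := by
  refine ⟨Pool.Agent.Lib.P34c5b1.X, inferInstance, inferInstance, inferInstance, ?_,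
    Pool.Agent.Lib.P34c5b1.card_le, ?_⟩
  · intro η x hx
    have hcl : ClusterPt x η := clusterPt_iff_forall_mem_closure.2 hx
    have hne : (𝓝 x ⊓ η).NeBot := hcl
    obtain ⟨u, hu⟩ := Ultrafilter.exists_le (𝓝 x ⊓ η)
    obtain ⟨B, hB, hBu, hconv⟩ := ultra x u (hu.trans inf_le_left)
    refine ⟨B, hB, hconv, fun n P hP => ?_⟩
    have hPu : P ∈ u := (hu.trans inf_le_right) hP
    exact u.nonempty_of_mem (Filter.inter_mem (hBu n) hPu)
  · intro K _ _ _ f hf
    exact Pool.Agent.Lib.P34c5b1.not_surjective hf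

end Pool.Agent.Results.MP_34c5b1_gt.NotFirstCountableImage
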